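import Pool.Agent.Helper17.QD.Glue2

/-!
# Project QD, glue, module EXC: equivariance on the closed disc by continuity
-/

set_option autoImplicit false

open Filter Topology Matrix Set Metric MeasureTheory
open scoped ComplexConjugate ComplexOrder ENNReal

namespace Pool.Agent.Helper3.QL

open Pool.Agent.Helper17.QD Pool.Agent.Helper35.PM
open Pool.Agent.Helper20.QD (Fuch cj IsSU D DD SS dz dzb mob den)

private theorem DD_cases {z : ℂ} (hz : z ∈ DD) : z ∈ D ∨ z ∈ SS := by
  have h : ‖z‖ ≤ 1 := by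
    simpa [DD] using hz
  rcases lt_or_eq_of_le h with h1 | h1
  · left
    simpa [D] using h1
  · right
    simpa [SS] using h1

private theorem D_sub : D ⊆ DD := ball_subset_closedBall

private theorem SS_sub : SS ⊆ DD := sphere_subset_closedBall

private theorem mapsDD {f : ℂ → ℂ} (h1 : BijOn f D D) (h2 : BijOn f SS SS) : MapsTo f DD DD := by
  intro z hz
  rcases DD_cases hz with h | h
  · exact D_sub (h1.mapsTo h)
  · exact SS_sub (h2.mapsTo h)

theorem hEXC (hSUB : Pool.Agent.Helper20.QD.StSUB) : StEXC := by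
  intro Γ _ σ τ k E hσ hτ hE h γ
  obtain ⟨hS1, _, _, _, hS5, _⟩ := hSUB
  obtain ⟨_, dσ, bσ, cσ, _⟩ := hS1 (σ γ) (hσ.su γ)
  obtain ⟨_, dτ, bτ, cτ, _⟩ := hS1 (τ γ) (hτ.su γ)
  have mσ : MapsTo (mob (σ γ)) DD DD := mapsDD bσ cσ
  have mE : MapsTo E DD DD := mapsDD hE.bij hE.bijS
  have kσ : ContinuousOn (mob (σ γ)) DD := fun z hz =>
    (hS5 (σ γ) z (dσ z hz)).continuousAt.continuousWithinAt
  have kτ : ContinuousOn (mob (τ γ)) DD := fun z hz =>
    (hS5 (τ γ) z (dτ z hz)).continuousAt.continuousWithinAt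
  have h1 : ContinuousOn (fun z => E (mob (σ γ) z)) DD := hE.cont.comp kσ mσ
  have h2 : ContinuousOn (fun z => mob (τ γ) (E z)) DD := kτ.comp hE.cont mE
  have h3 : EqOn (fun z => E (mob (σ γ) z)) (fun z => mob (τ γ) (E z)) D := fun z hz => h γ z hz
  have h4 : DD ⊆ closure D := by
    rw [closure_ball (0 : ℂ) one_ne_zero]
  intro z hz
  exact h3.of_subset_closure h1 h2 D_sub h4 hz

end Pool.Agent.Helper3.QL
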