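import Pool.Agent.Helper17.QD.Glue

/-!
# Project QD, glue, module OPR: operations on representations
-/

set_option autoImplicit false

open Filter Topology Matrix Set Metric MeasureTheory
open scoped ComplexOrder ENNReal

namespace Pool.Agent.Helper3.QL

open Pool.Agent.Helper17.QD Pool.Agent.Helper35.PM

section

variable {Γ : Type} [Group Γ] (O : (Γ →* SL) → (Γ →* SL))

private theorem ent_O (h2 : ∀ ρ T, num (O ρ) T = num ρ T) (ρ : Γ →* SL) : ent (O ρ) = ent ρ := by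
  unfold ent
  simp only [h2]

private theorem J_O (h2 : ∀ ρ T, num (O ρ) T = num ρ T)
    (h3 : ∀ ρ σ T, avg (O ρ) (O σ) T = avg ρ σ T) (V : Ultrafilter ℝ) (ρ σ : Γ →* SL) :
    Pool.Agent.Helper35.PM.J V (O ρ) (O σ) = Pool.Agent.Helper35.PM.J V ρ σ := by
  have h : avg (O ρ) (O σ) = avg ρ σ := funext fun T => h3 ρ σ T
  unfold Pool.Agent.Helper35.PM.J inter
  rw [ent_O O h2, ent_O O h2, h]

private theorem speed_O (h2 : ∀ ρ T, num (O ρ) T = num ρ T)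
    (h3 : ∀ ρ σ T, avg (O ρ) (O σ) T = avg ρ σ T) (U : (Γ →* SL) → Ultrafilter ℝ)
    (c : ℝ → Γ →* SL) (t : ℝ) :
    speedSq U (fun t => O (c t)) t = speedSq (fun τ => U (O τ)) c t := by
  unfold speedSq
  simp only [J_O O h2 h3]

private theorem press (h1 : ∀ ρ, IsQF ρ → IsQF (O ρ)) (h2 : ∀ ρ T, num (O ρ) T = num ρ T)
    (h3 : ∀ ρ σ T, avg (O ρ) (O σ) T = avg ρ σ T) (h4 : ∀ ρ σ, Sim ρ σ → Sim (O ρ) (O σ))
    (h5 : ∀ (c : ℝ → Γ →* SL) (a b : ℝ),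
      (∀ γ i j, ContDiffOn ℝ ((⊤ : ℕ∞) : WithTop ℕ∞) (fun t : ℝ => (c t γ : Mat) i j) (Icc a b)) →
      ∀ γ i j, ContDiffOn ℝ ((⊤ : ℕ∞) : WithTop ℕ∞)
        (fun t : ℝ => (O (c t) γ : Mat) i j) (Icc a b))
    (U : (Γ →* SL) → Ultrafilter ℝ) (ρ σ : Γ →* SL) (B : ℝ≥0∞)
    (h : PressureLE (fun τ => U (O τ)) ρ σ B) : PressureLE U (O ρ) (O σ) B := by
  induction h with
  | conj ρ σ B h =>
    obtain ⟨B', hB'⟩ := h4 ρ σ ⟨B, h⟩
    exact PressureLE.conj (O ρ) (O σ) B' hB'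
  | path c a b B hab hc hB =>
    refine PressureLE.path (fun t => O (c t)) a b B hab ⟨h5 c a b hc.1, fun t ht => h1 _ (hc.2 t ht)⟩ ?_
    obtain ⟨q, hq, hq2, hq3⟩ := hB
    refine ⟨q, hq, fun t ht => ?_, hq3⟩
    rw [speed_O O h2 h3]
    exact hq2 t ht
  | trans ρ σ τ B B' _ _ ih ih' => exact PressureLE.trans (O ρ) (O σ) (O τ) B B' ih ih'

end

theorem hOPR : StOPR := by
  intro Γ _ O h1 h2 h3 h4 h5 U hU
  refine ⟨fun ρ hρ => ?_, fun ρ σ => ?_⟩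
  · obtain ⟨a1, a2⟩ := hU (O ρ) (h1 ρ hρ)
    rw [ent_O O h2] at a2
    simp only [h2] at a2
    exact ⟨a1, a2⟩
  · unfold pressureDist
    exact sInf_le_sInf fun B hB => press O h1 h2 h3 h4 h5 U ρ σ B hB

end Pool.Agent.Helper3.QL
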